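import Mathlib

namespace Pool.Agent.Results.MP_07f7bf_an.Euler

section defs
variable (X : Type) [NormedAddCommGroup X] [NormedSpace ℝ X]

/-- numerical radius of a map `P : X → X` -/
noncomputable def rad {X : Type} [NormedAddCommGroup X] [NormedSpace ℝ X] (P : X → X) : ℝ :=
  sSup {s | ∃ (x : X) (f : X →L[ℝ] ℝ), ‖x‖ = 1 ∧ ‖f‖ = 1 ∧ f x = 1 ∧ s = |f (P x)|}

/-- numerical index -/
noncomputable def n1 : ℝ := sInf {c | ∃ T : X →L[ℝ] X, ‖T‖ = 1 ∧ c = rad T}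

/-- polynomial numerical index of order two -/
noncomputable def n2 : ℝ := sInf {c | ∃ A : X →L[ℝ] X →L[ℝ] X,
  sSup {r | ∃ x : X, ‖x‖ ≤ 1 ∧ r = ‖A x x‖} = 1 ∧ c = rad fun x => A x x}

end defs

def E : Submodule ℝ (ℂ × ℂ) where
  carrier := {p | p.2.im = p.1.im}
  add_mem' := by intro p q h1 h2; simp at *; rw [h1, h2]
  zero_mem' := by simp
  smul_mem' := by intro t p h; simp at *; exact Or.inl h

def mk (x y z : ℝ) : E := ⟨(⟨x, z⟩, ⟨y, z⟩), rfl⟩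

noncomputable def cx : E →L[ℝ] ℝ :=
  Complex.reCLM.comp ((ContinuousLinearMap.fst ℝ ℂ ℂ).comp E.subtypeL)
noncomputable def cy : E →L[ℝ] ℝ :=
  Complex.reCLM.comp ((ContinuousLinearMap.snd ℝ ℂ ℂ).comp E.subtypeL)
noncomputable def cz : E →L[ℝ] ℝ :=
  Complex.imCLM.comp ((ContinuousLinearMap.fst ℝ ℂ ℂ).comp E.subtypeL)

@[simp] lemma cx_mk (x y z : ℝ) : cx (mk x y z) = x := rfl
@[simp] lemma cy_mk (x y z : ℝ) : cy (mk x y z) = y := rfl
@[simp] lemma cz_mk (x y z : ℝ) : cz (mk x y z) = z := rfl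

lemma nsq (p : E) : ‖p‖ ^ 2 = max (cx p ^ 2 + cz p ^ 2) (cy p ^ 2 + cz p ^ 2) := by
  have h1 : ‖p.1.1‖ ^ 2 = cx p ^ 2 + cz p ^ 2 := by
    rw [Complex.sq_norm, Complex.normSq_apply, sq, sq]; rfl
  have h2 : ‖p.1.2‖ ^ 2 = cy p ^ 2 + cz p ^ 2 := by
    rw [Complex.sq_norm, Complex.normSq_apply, p.2, sq, sq]; rfl
  rw [← h1, ← h2]
  change (max ‖p.1.1‖ ‖p.1.2‖) ^ 2 = _
  rcases le_total ‖p.1.1‖ ‖p.1.2‖ with h | h
  · rw [max_eq_right h, max_eq_right (by gcongr)]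
  · rw [max_eq_left h, max_eq_left (by gcongr)]

lemma l1 (p : E) : cx p ^ 2 + cz p ^ 2 ≤ ‖p‖ ^ 2 := nsq p ▸ le_max_left _ _
lemma l2 (p : E) : cy p ^ 2 + cz p ^ 2 ≤ ‖p‖ ^ 2 := nsq p ▸ le_max_right _ _

lemma decomp (p : E) : p = cx p • mk 1 0 0 + cy p • mk 0 1 0 + cz p • mk 0 0 1 := by
  have h : p.1.2.im = p.1.1.im := p.2
  ext
  · apply Complex.ext <;> simp [mk, cx, cz]
  · apply Complex.ext
    · simp [mk, cy]
    · simp [mk, cz, h]

noncomputable def B {X : Type} [NormedAddCommGroup X] [NormedSpace ℝ X] (f g h : X →L[ℝ] ℝ)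
    (u v w : X) : X →L[ℝ] X →L[ℝ] X :=
  g.smulRight (h.smulRight u) + h.smulRight (f.smulRight v) - f.smulRight (g.smulRight w)

lemma B_app {X : Type} [NormedAddCommGroup X] [NormedSpace ℝ X] (f g h : X →L[ℝ] ℝ)
    (u v w p : X) :
    B f g h u v w p p = (g p * h p) • u + (h p * f p) • v - (f p * g p) • w := by
  simp [B, mul_smul]

noncomputable def A : E →L[ℝ] E →L[ℝ] E := B cx cy cz (mk 1 0 0) (mk 0 1 0) (mk 0 0 1)

lemma Ax (p : E) : cx (A p p) = cy p * cz p := by rw [A, B_app]; simp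
lemma Ay (p : E) : cy (A p p) = cz p * cx p := by rw [A, B_app]; simp
lemma Az (p : E) : cz (A p p) = -(cx p * cy p) := by rw [A, B_app]; simp

lemma unit {t : ℝ} (h0 : 0 ≤ t) (h : t ^ 2 = 1) : t = 1 := by nlinarith

lemma A_le (p : E) (h : ‖p‖ ≤ 1) : ‖A p p‖ ^ 2 ≤ 1 := by
  have a := l1 p
  have b := l2 p
  have c : ‖p‖ ^ 2 ≤ 1 := by nlinarith [norm_nonneg p]
  rw [nsq, Ax, Ay, Az]
  have x0 := sq_nonneg (cx p)
  have y0 := sq_nonneg (cy p)
  have z0 := sq_nonneg (cz p)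
  apply max_le
  · have : cy p ^ 2 * (cx p ^ 2 + cz p ^ 2) ≤ 1 * 1 := by gcongr <;> linarith
    nlinarith
  · have : cx p ^ 2 * (cy p ^ 2 + cz p ^ 2) ≤ 1 * 1 := by gcongr <;> linarith
    nlinarith

lemma tangent (p : E) (f : E →L[ℝ] ℝ) (hp : ‖p‖ = 1) (hf : ‖f‖ = 1) (h : f p = 1) :
    f (A p p) = 0 := by
  have key : ∀ t : ℝ, (1 + t * f (A p p)) ^ 2 ≤ 1 + t ^ 2 := by
    intro t
    have h1 := f.le_opNorm (p + t • A p p)
    rw [hf, one_mul, map_add, map_smul, h, smul_eq_mul, Real.norm_eq_abs] at h1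
    have h2 : ‖p + t • A p p‖ ^ 2 ≤ 1 + t ^ 2 := by
      have a := l1 p
      have b := l2 p
      have c := (l1 (A p p)).trans (A_le p hp.le)
      have d := (l2 (A p p)).trans (A_le p hp.le)
      rw [nsq]
      simp only [map_add, map_smul, smul_eq_mul, Ax, Ay, Az, hp] at *
      apply max_le <;> nlinarith [sq_nonneg t]
    rw [← sq_abs]
    exact (pow_le_pow_left₀ (abs_nonneg _) h1 2).trans h2
  have := key (f (A p p))
  nlinarith [sq_nonneg (f (A p p) ^ 2)]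

lemma le_rad (T : E →L[ℝ] E) (x : E) (f : E →L[ℝ] ℝ) (hx : ‖x‖ ^ 2 = 1)
    (hf : ∀ p, f p ^ 2 ≤ ‖p‖ ^ 2) (h : f x = 1) : |f (T x)| ≤ rad T := by
  have hx1 := unit (norm_nonneg _) hx
  have hf1 : ‖f‖ = 1 := by
    apply le_antisymm
    · refine f.opNorm_le_bound zero_le_one fun p => ?_
      rw [one_mul, Real.norm_eq_abs]; exact abs_le_of_sq_le_sq' (hf p) (norm_nonneg _) |> abs_le.2
    · simpa [h, hx1] using f.le_opNorm x
  refine le_csSup ⟨‖T‖, ?_⟩ ⟨x, f, hx1, hf1, h, rfl⟩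
  rintro _ ⟨y, g, hy, hg, -, rfl⟩
  have := (g.le_opNorm (T y)).trans (mul_le_mul_of_nonneg_left (T.le_opNorm y) (norm_nonneg _))
  simpa [hy, hg] using this

lemma t1 (T : E →L[ℝ] E) (a y c : ℝ) (h : a ^ 2 + c ^ 2 = 1) (hy : y ^ 2 ≤ a ^ 2) :
    |a * cx (T (mk a y c)) + c * cz (T (mk a y c))| ≤ rad T :=
  le_rad T (mk a y c) (a • cx + c • cz) (by rw [nsq]; simp [max_eq_left, h]; linarith)
    (fun p => by
      have := l1 p
      simp only [ContinuousLinearMap.add_apply, ContinuousLinearMap.smul_apply, smul_eq_mul]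
      nlinarith [sq_nonneg (a * cz p - c * cx p)]) (by simp; linarith)

lemma t2 (T : E →L[ℝ] E) (x a c : ℝ) (h : a ^ 2 + c ^ 2 = 1) (hy : x ^ 2 ≤ a ^ 2) :
    |a * cy (T (mk x a c)) + c * cz (T (mk x a c))| ≤ rad T :=
  le_rad T (mk x a c) (a • cy + c • cz) (by rw [nsq]; simp [max_eq_right, h]; linarith)
    (fun p => by
      have := l2 p
      simp only [ContinuousLinearMap.add_apply, ContinuousLinearMap.smul_apply, smul_eq_mul]
      nlinarith [sq_nonneg (a * cz p - c * cy p)]) (by simp; linarith)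

lemma norm_le (p : E) (v : ℝ) (h1 : |cx p| ≤ v) (h2 : |cy p| ≤ v) (h3 : |cz p| ≤ v) :
    ‖p‖ ≤ 2 * v := by
  have v0 := (abs_nonneg _).trans h1
  refine abs_le_of_sq_le_sq' ?_ (by linarith) |>.2
  have := sq_le_sq' (abs_le.1 h1).1 (abs_le.1 h1).2
  have := sq_le_sq' (abs_le.1 h2).1 (abs_le.1 h2).2
  have := sq_le_sq' (abs_le.1 h3).1 (abs_le.1 h3).2
  rw [nsq]; apply max_le <;> nlinarith

lemma lower (T : E →L[ℝ] E) : ‖T‖ ≤ 120 * rad T := by
  have lin : ∀ a b c, T (mk a b c) = a • T (mk 1 0 0) + b • T (mk 0 1 0) + c • T (mk 0 0 1) := by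
    intro a b c; rw [decomp (mk a b c)]; simp
  have a1 := abs_le.1 (t1 T 1 0 0 (by norm_num) (by norm_num))
  have a2 := abs_le.1 (t1 T 1 1 0 (by norm_num) (by norm_num))
  have a3 := abs_le.1 (t1 T 0 0 1 (by norm_num) (by norm_num))
  have a4 := abs_le.1 (t1 T (3 / 5) 0 (4 / 5) (by norm_num) (by norm_num))
  have a5 := abs_le.1 (t1 T (3 / 5) (3 / 5) (4 / 5) (by norm_num) (by norm_num))
  have b1 := abs_le.1 (t2 T 0 1 0 (by norm_num) (by norm_num))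
  have b2 := abs_le.1 (t2 T 1 1 0 (by norm_num) (by norm_num))
  have b4 := abs_le.1 (t2 T 0 (3 / 5) (4 / 5) (by norm_num) (by norm_num))
  have b5 := abs_le.1 (t2 T (3 / 5) (3 / 5) (4 / 5) (by norm_num) (by norm_num))
  rw [lin 1 1 0] at a2 b2
  rw [lin (3 / 5) 0 (4 / 5)] at a4
  rw [lin 0 (3 / 5) (4 / 5)] at b4
  rw [lin (3 / 5) (3 / 5) (4 / 5)] at a5 b5
  simp only [map_add, map_smul, smul_eq_mul] at *
  have v0 : 0 ≤ rad T := by linarith [a1.1, a1.2]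
  have n1 := norm_le (T (mk 1 0 0)) (20 * rad T) (abs_le.2 ⟨by linarith, by linarith⟩)
    (abs_le.2 ⟨by linarith, by linarith⟩) (abs_le.2 ⟨by linarith, by linarith⟩)
  have n2 := norm_le (T (mk 0 1 0)) (20 * rad T) (abs_le.2 ⟨by linarith, by linarith⟩)
    (abs_le.2 ⟨by linarith, by linarith⟩) (abs_le.2 ⟨by linarith, by linarith⟩)
  have n3 := norm_le (T (mk 0 0 1)) (20 * rad T) (abs_le.2 ⟨by linarith, by linarith⟩)
    (abs_le.2 ⟨by linarith, by linarith⟩) (abs_le.2 ⟨by linarith, by linarith⟩)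
  refine T.opNorm_le_bound (by linarith) fun p => ?_
  have x1 : |cx p| ≤ ‖p‖ := abs_le.2 (abs_le_of_sq_le_sq' (by nlinarith [l1 p]) (norm_nonneg _))
  have x2 : |cy p| ≤ ‖p‖ := abs_le.2 (abs_le_of_sq_le_sq' (by nlinarith [l2 p]) (norm_nonneg _))
  have x3 : |cz p| ≤ ‖p‖ := abs_le.2 (abs_le_of_sq_le_sq' (by nlinarith [l1 p]) (norm_nonneg _))
  conv_lhs => rw [decomp p]
  simp only [map_add, map_smul]
  refine (norm_add₃_le).trans ?_
  simp only [norm_smul, Real.norm_eq_abs]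
  have m1 := mul_le_mul x1 n1 (norm_nonneg _) (norm_nonneg _)
  have m2 := mul_le_mul x2 n2 (norm_nonneg _) (norm_nonneg _)
  have m3 := mul_le_mul x3 n3 (norm_nonneg _) (norm_nonneg _)
  linarith

theorem result : ∃ (X : Type) (_ : NormedAddCommGroup X) (_ : NormedSpace ℝ X),
    CompleteSpace X ∧ FiniteDimensional ℝ X ∧ Nontrivial X ∧ n2 X = 0 ∧ 0 < n1 X := by
  have nt : Nontrivial E := ⟨⟨mk 1 0 0, 0, fun h => by simpa using congrArg cx h⟩⟩
  refine ⟨E, inferInstance, inferInstance, FiniteDimensional.complete ℝ E, inferInstance, nt,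
    ?_, ?_⟩
  · have r0 : ∀ P : E → E, 0 ≤ rad P := fun P => Real.sSup_nonneg (by
      rintro _ ⟨x, f, -, -, -, rfl⟩; exact abs_nonneg _)
    refine IsLeast.csInf_eq ⟨⟨A, IsGreatest.csSup_eq ⟨⟨mk 1 1 0, ?_, ?_⟩, ?_⟩, ?_⟩, ?_⟩
    · exact (unit (norm_nonneg _) (by rw [nsq]; simp)).le
    · exact (unit (norm_nonneg _) (by rw [nsq, Ax, Ay, Az]; simp)).symm
    · rintro _ ⟨p, hp, rfl⟩
      nlinarith [A_le p hp, norm_nonneg (A p p)]
    · refine le_antisymm (r0 _) (Real.sSup_nonpos ?_)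
      rintro _ ⟨x, f, a, b, c, rfl⟩
      rw [tangent x f a b c, abs_zero]
    · rintro _ ⟨B, -, rfl⟩; exact r0 _
  · refine lt_of_lt_of_le (show (0 : ℝ) < 1 / 120 by norm_num) (le_csInf
      ⟨_, ContinuousLinearMap.id ℝ E, ContinuousLinearMap.norm_id, rfl⟩ ?_)
    rintro _ ⟨T, h, rfl⟩
    linarith [lower T]

end Pool.Agent.Results.MP_07f7bf_an.Euler
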